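import Pool.Agent.U546.PV.Fin

/-!
# Polynomial Freiman–Ruzsa from almost periods, and for bounded VC-dimension

Let `A`, `B` be finite subsets of an abelian group with `|A + B| ≤ K |A|` and `|A + B| ≤ K |B|`.
Suppose that `B` has at least `(2K)^(-D) |B|` shifts `t` with `|B \ (B - t)| ≤ |B| / (8K)`, or that
the translates `a + B` (`a ∈ A`) shatter no set of more than `D / 8` elements. Then `A` is covered
by `(2K)^(3 D) (1 + D)^(650000 D)` translates of a centered convex (coset) progression of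
dimension at most `2700 D` and volume at most `|A|`.
-/

set_option autoImplicit false

namespace Pool.Agent.Results.MP_626a77_co.BoundedVC

open scoped Pointwise

/-- the number of `t ∈ B - B` for which at most `δ |B|` elements `b ∈ B` have `b + t ∉ B` -/
noncomputable def periods {G : Type} [AddCommGroup G] [DecidableEq G] (B : Finset G) (δ : ℝ) : ℕ :=
  {t : G | t ∈ B - B ∧ ((B.filter fun b => b + t ∉ B).card : ℝ) ≤ δ * B.card}.ncard

/-- the translates `a + B` with `a ∈ A` shatter no set of more than `d` elements -/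
def VCle {G : Type} [AddCommGroup G] (A B : Finset G) (d : ℕ) : Prop :=
  ∀ S : Finset G, (∀ T ⊆ S, ∃ a ∈ A, ∀ s ∈ S, (s ∈ T ↔ s - a ∈ B)) → S.card ≤ d

/-- a compact convex set with nonempty interior and `-Q = Q` -/
def SymmBody {m : ℕ} (Q : Set (Fin m → ℝ)) : Prop :=
  Convex ℝ Q ∧ IsCompact Q ∧ (interior Q).Nonempty ∧ ∀ x ∈ Q, -x ∈ Q

theorem periods_eq {G : Type} [AddCommGroup G] [DecidableEq G] (B : Finset G) (δ : ℝ) :
    periods B δ = (Pool.Agent.U546.PV.PG B δ).card := by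
  classical
  rw [← Set.ncard_coe_finset]
  unfold periods Pool.Agent.U546.PV.PG Pool.Agent.U546.PV.dst
  congr 1
  ext t
  simp

theorem result (G : Type) [AddCommGroup G] [DecidableEq G] (A B : Finset G) (hA : A.Nonempty)
    (hB : B.Nonempty) (K : ℝ) (hKA : ((A + B).card : ℝ) ≤ K * A.card)
    (hKB : ((A + B).card : ℝ) ≤ K * B.card) (D : ℕ) (hD : 1 ≤ D)
    (h : (B.card : ℝ) ≤ (2 * K) ^ D * periods B (1 / (8 * K)) ∨ ∃ d : ℕ, 8 * d ≤ D ∧ VCle A B d) :
    ∃ (m : ℕ) (Q : Set (Fin m → ℝ)) (φ : (Fin m → ℤ) →+ G) (H : AddSubgroup G) (T : Finset G),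
      m ≤ 2700 * D ∧ SymmBody Q ∧ Finite H ∧
      ((∀ (n : ℕ) (x : G), n ≠ 0 → n • x = 0 → x = 0) → H = ⊥) ∧
      {c : Fin m → ℤ | (fun i => (c i : ℝ)) ∈ Q}.ncard * Nat.card H ≤ A.card ∧
      (T.card : ℝ) ≤ (2 * K) ^ (3 * D) * (1 + (D : ℝ)) ^ (650000 * D) ∧
      ∀ a ∈ A, ∃ t ∈ T, ∃ c : Fin m → ℤ, (fun i => (c i : ℝ)) ∈ Q ∧ ∃ h ∈ H, a = t + φ c + h := by
  have hper : (B.card : ℝ) ≤ (2 * K) ^ D * (Pool.Agent.U546.PV.PG B (1 / (8 * K))).card := by
    rcases h with h | ⟨d, hd, h⟩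
    · rw [periods_eq] at h
      exact h
    · exact Pool.Agent.U546.PV.vcT2 hA hB hD hd hKA hKB h
  obtain ⟨m, Q, ψ, H₀, T, hm, hQ, hH₀, hvol, hT, hc⟩ :=
    Pool.Agent.U546.PV.T2 hA hB hD hKA hKB hper
  exact ⟨m, Q, ψ, H₀, T, hm, hQ, hH₀, fun htf => Pool.Agent.U546.PV.bot_of_tf htf H₀, hvol, hT, hc⟩

end Pool.Agent.Results.MP_626a77_co.BoundedVC
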