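import Mathlib
import Pool.Agent.U685.DF.Down

/-!
A dimension-free lower bound for sumsets, in terms of integer coordinates on the sets, and its
consequences for sets with small doubling.
-/

namespace Pool.Agent.Results.MP_626a77_co.DimensionFreeSumset

open Finset Pool.Agent.U685.DF
open scoped Pointwise

/-- See the claim file. -/
theorem result :
    -- (1) the inequality
    (∀ {Γ : Type} [AddCommGroup Γ] [DecidableEq Γ] (d : ℕ) (A B : Finset Γ),
      A.Nonempty → B.Nonempty → ∀ (f g : Γ → Fin d → ℤ) (ρ τ : Fin d → Γ → ℕ),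
      Compat A B f g → Labelling A f ρ → Labelling B g τ →
      (∑ a ∈ A, (size A f ρ a : ℝ) ^ (-(1 / 5) : ℝ)) *
        (∑ b ∈ B, (size B g τ b : ℝ) ^ (-(1 / 5) : ℝ)) ≤ ((A + B).card : ℝ) ^ (8 / 5 : ℝ)) ∧
    -- (2) small doubling: most points have large size
    (∀ {Γ : Type} [AddCommGroup Γ] [DecidableEq Γ] (d : ℕ) (A : Finset Γ), A.Nonempty →
      ∀ (f : Γ → Fin d → ℤ) (ρ : Fin d → Γ → ℕ), Compat A A f f → Labelling A f ρ →
      ∀ K L : ℝ, 0 < L → ((A + A).card : ℝ) ≤ K * A.card →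
      L * ((A.filter fun a => (size A f ρ a : ℝ) < A.card / (L ^ 5 * K ^ 4)).card : ℝ) <
        A.card) ∧
    -- (3) small doubling: the boxes around any centre
    (∀ {Γ : Type} [AddCommGroup Γ] [DecidableEq Γ] (d : ℕ) (A : Finset Γ), A.Nonempty →
      ∀ f : Γ → Fin d → ℤ, Compat A A f f → ∀ (c : Fin d → ℤ) (K L : ℝ), 0 < L →
      ((A + A).card : ℝ) ≤ K * A.card →
      L * ((A.filter fun a => ((∏ i, (2 * |f a i - c i| + 1) : ℤ) : ℝ) *
        (A.filter fun b => f b = f a).card < A.card / (L ^ 5 * K ^ 4)).card : ℝ) < A.card) ∧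
    -- (4) relabelled down-sets contain large Cartesian products
    (∀ (d : ℕ) (D : Finset (Fin d → ℕ)), D.Nonempty → (∀ y ∈ D, ∀ z, z ≤ y → z ∈ D) →
      ∀ h : Fin d → ℕ → ℤ, (∀ i, Function.Injective (h i)) → ∀ S : Finset (Fin d → ℤ),
      S = D.image (fun y i => h i (y i)) → ∀ K : ℝ, ((S + S).card : ℝ) ≤ K * S.card →
      ∃ (P : Fin d → Finset ℤ) (T : Finset (Fin d → ℤ)), (∀ i, (P i).Nonempty) ∧
        Fintype.piFinset P ⊆ S ∧
        (S.card : ℝ) ≤ K ^ 4 * ∏ i, ((P i).card : ℝ) ∧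
        ∏ i, ((P i + P i).card : ℝ) ≤ K ^ 5 * ∏ i, ((P i).card : ℝ) ∧
        (3 / 2 : ℝ) ^ (univ.filter fun i => 2 ≤ (P i).card).card ≤ K ^ 5 ∧
        (T.card : ℝ) ≤ K ^ 5 ∧ S ⊆ T + (Fintype.piFinset P - Fintype.piFinset P)) :=
  ⟨fun _ A B hA hB f g ρ τ hfg hρ hτ => main_ineq A B hA hB f g ρ τ hfg hρ hτ,
    fun _ A hA f ρ hf hρ K L hL hK => small_doubling A hA f ρ hf hρ K L hL hK,
    fun _ A hA f hf c K L hL hK => centre A hA f hf c K L hL hK,
    fun _ D hD hdown h hinj S hS K hK => relabelled D hD hdown h hinj S hS K hK⟩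

end Pool.Agent.Results.MP_626a77_co.DimensionFreeSumset
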