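import Pool.Agent.U234.OD.Cos

/-!
# Sets of integers with small sums with one or few large dilates

The conjecture asks for the structure of finite sets `A` of integers with `|A + A| ≤ K |A|`, with bounds
which are polynomial in `K`; the best known bounds are `exp ((log K) ^ (3 + o (1)))`. Here we bound the
size of the sets which have small sums with one or with few dilates, by the optimal function of `K` and of
the number of dilates. `c A` is the set of the `c a`, `a ∈ A`, and `log` is the natural logarithm.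

(1) Let `p` be a prime, `k ≥ 1`, `q = p ^ k` and `Γ` a torsion free abelian group, for instance `Γ = ℤ`.
Let `K ≥ 1` and let `S` be a finite set of positive integers such that `K ^ 4 < q ^ |S|`. Let `A ⊆ Γ` be
finite and nonempty and suppose that for every `s ∈ S` there are integers `u, v` which are not divisible
by `p` such that `|v A + q ^ s u A| ≤ K |A|`. Then
`|A| ≤ exp (10 ^ 33 ((log K) ^ 2 / |S| + log K))`.
 * One dilate (`S = {1}`): if `q > K ^ 4` is a power of a prime which divides the integer `a` exactly and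
   is prime to `b`, and if `|b A + a A| ≤ K |A|`, then `|A| ≤ exp (10 ^ 33 ((log K) ^ 2 + log K))`. In
   other words `|A + λ A| ≥ min (λ ^ (1/4), exp (c √(log |A|))) |A|` for ALL powers `λ` of primes (also
   for powers of `2`) and ALL finite sets of integers, `c` absolute. For transcendental `λ` the
   inequality `|A + λ A| ≥ exp (c √(log |A|)) |A|` is a theorem of Conlon and Lim (earlier, weaker bounds:
   Konyagin-Łaba, Sanders, Schoen); it follows from the case of large primes by specialization.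
 * With at least `log K` dilates the bound is a power of `K`: for these sets the conclusion of Q1 holds
   (with translates of a point).
(2) The same for every abelian group (dilates by `q ^ s u`): a subset `A'` of `A` with
`|A| ≤ exp (10 ^ 33 ((log K) ^ 2 / |S| + log K)) |A'|` lies in a coset of a finite subgroup `U`, and if
moreover `|A + A| ≤ K |A|`, then `A` is covered by `K exp (10 ^ 33 ((log K) ^ 2 / |S| + log K))` cosets
of `U`.
(3) The bound is optimal up to the constant, for every number `r` of dilates and every `q`: for all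
`r, a ≥ 1` and `q ≥ 2 ^ a` there is `A ⊆ ℤ` with `2 ^ (r a ^ 2)` elements such that
`|A + q ^ s A| ≤ K |A|` for `s = 1, ..., r` with `K = 2 ^ (2 r a)`; here
`log |A| = (log K) ^ 2 / (4 log 2 r)`.
(4) The hypothesis `K ^ 4 < q ^ |S|` is optimal up to the exponent `4`: for `K = q ^ r + 1` there are sets
`A ⊆ ℤ` with any number of elements such that `|A + q ^ s A| ≤ K |A|` for `s = 1, ..., r`.

Proof of (1). Let `F_t` be the subgroup of the elements divisible by `q ^ t` in the group `G` generated by
`A`, `X`, `X'` independent uniform random elements of `A`, `η_t` the entropy of `X` modulo `F_(t+1)` minus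
the entropy modulo `F_t`. The total cost `∑_t (h_t - η_t)`, `h_t` the increments of the entropies of
`v X + q ^ s u X'`, is at most `log K`; and `h_t ≥ max (η_t, η_(t-s))`. An inverse theorem (entropies and
Hellinger distances; almost invariant distributions on finite groups are close to cosets of subgroups) for
the group `F_t / F_(t+2)` shows: if the cost at two successive levels is smaller than a constant then
either `η_t` is small or `η_(t+1) ≥ (log q) / 2`. A combinatorial lemma on sequences which are almost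
invariant under `|S|` shifts bounds the number of the levels with large `η_t` by `C log K`
(by `K ^ 4 < q ^ |S|`), and then their sum.
-/

set_option autoImplicit false
open scoped Pointwise

universe u

namespace Pool.Agent.Results.MP_626a77_co.FewLargeDilates

/-- `C (K, r) = exp (10 ^ 33 ((log K) ^ 2 / r + log K))` -/
noncomputable def bound (K : ℝ) (r : ℕ) : ℝ :=
  Real.exp (10 ^ 33 * (Real.log K ^ 2 / r + Real.log K))

/-- `Γ` is torsion free. -/
def TorsionFree (Γ : Type u) [AddCommGroup Γ] : Prop := ∀ (n : ℤ) (x : Γ), n ≠ 0 → n • x = 0 → x = 0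

/-- the dilate `c A` -/
def dil {Γ : Type u} [AddCommGroup Γ] [DecidableEq Γ] (c : ℤ) (A : Finset Γ) : Finset Γ :=
  A.image fun x => c • x

/-- **Sets with small sums with few large dilates.** -/
theorem result :
    -- (1) torsion free groups
    (∀ (Γ : Type u) [AddCommGroup Γ] [DecidableEq Γ], TorsionFree Γ →
      ∀ (p k : ℕ), p.Prime → 1 ≤ k → ∀ (A : Finset Γ), A.Nonempty → ∀ (K : ℝ), 1 ≤ K →
      ∀ (S : Finset ℕ), (∀ s ∈ S, 1 ≤ s) → K ^ 4 < ((p : ℝ) ^ k) ^ S.card →
      (∀ s ∈ S, ∃ u v : ℤ, ¬ (p : ℤ) ∣ u ∧ ¬ (p : ℤ) ∣ v ∧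
        ((dil v A + dil (((p : ℤ) ^ k) ^ s * u) A).card : ℝ) ≤ K * A.card) →
      (A.card : ℝ) ≤ bound K S.card) ∧
    -- (2) all abelian groups
    (∀ (Γ : Type u) [AddCommGroup Γ] [DecidableEq Γ] (p k : ℕ), p.Prime → 1 ≤ k →
      ∀ (A : Finset Γ), A.Nonempty → ∀ (K : ℝ), 1 ≤ K →
      ∀ (S : Finset ℕ), (∀ s ∈ S, 1 ≤ s) → K ^ 4 < ((p : ℝ) ^ k) ^ S.card →
      (∀ s ∈ S, ∃ u : ℤ, ¬ (p : ℤ) ∣ u ∧
        ((A + dil (((p : ℤ) ^ k) ^ s * u) A).card : ℝ) ≤ K * A.card) →
      ∃ U : AddSubgroup Γ, Finite U ∧ ∃ A' ⊆ A, (A.card : ℝ) ≤ bound K S.card * A'.card ∧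
        (∀ x ∈ A', ∀ y ∈ A', x - y ∈ U) ∧
        (((A + A).card : ℝ) ≤ K * A.card → ∃ T ⊆ A, (T.card : ℝ) ≤ K * bound K S.card ∧
          ∀ a ∈ A, ∃ t ∈ T, a - t ∈ U)) ∧
    -- (3) optimality of the bound
    (∀ (r a : ℕ), 1 ≤ r → 1 ≤ a → ∀ q : ℤ, 2 ^ a ≤ q → ∃ A : Finset ℤ,
      A.card = 2 ^ (r * a ^ 2) ∧
      ∀ s ∈ Finset.Icc 1 r, (A + dil (q ^ s) A).card ≤ 2 ^ (2 * r * a) * A.card) ∧
    -- (4) optimality of the hypothesis
    (∀ (r n q : ℕ), 1 ≤ q → ∃ A : Finset ℤ, A.card = n ∧
      ∀ s ∈ Finset.Icc 1 r, (A + dil ((q : ℤ) ^ s) A).card ≤ (q ^ r + 1) * A.card) := by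
  have cop : ∀ (p : ℕ), p.Prime → ∀ u : ℤ, ¬ (p : ℤ) ∣ u → IsCoprime u (p : ℤ) := by
    intro p hp u hu
    exact ((Nat.prime_iff_prime_int.1 hp).coprime_iff_not_dvd.2 hu).symm
  refine ⟨?_, ?_, ?_, ?_⟩
  · intro Γ _ _ htf p k hp hk A hA K hK S hS1 hS hsum
    refine Pool.Agent.U234.OD.few_rat htf p k hp hk A hA K hK S hS1 hS fun s hs => ?_
    obtain ⟨u, v, hu, hv, hle⟩ := hsum s hs
    refine ⟨u, v, cop p hp u hu, cop p hp v hv, ?_⟩
    rw [← pow_mul] at hle
    exact hle
  · intro Γ _ _ p k hp hk A hA K hK S hS1 hS hsum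
    refine Pool.Agent.U234.OD.few_coset p k hp hk A hA K hK S hS1 hS fun s hs => ?_
    obtain ⟨u, hu, hle⟩ := hsum s hs
    refine ⟨u, cop p hp u hu, ?_⟩
    rw [← pow_mul] at hle
    exact hle
  · intro r a hr ha q hq
    obtain ⟨A, h1, h2⟩ := Pool.Agent.U234.OD.sharp r a hr ha q hq
    exact ⟨A, h1, fun s hs => by simpa [dil] using h2 s hs⟩
  · intro r n q hq
    obtain ⟨A, h1, h2⟩ := Pool.Agent.U234.OD.interval r n q hq
    exact ⟨A, h1, fun s hs => by simpa [dil] using h2 s hs⟩

end Pool.Agent.Results.MP_626a77_co.FewLargeDilates
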