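import Pool.Agent.U234.OD.PCard

/-!
# The `p`-adic profile of a set of integers with small doubling

The conjecture predicts that a finite set `A` of integers with `|A + A| ≤ K |A|` looks like a (convex)
progression of dimension `O (log K)`, up to factors `K ^ O(1)`. We prove a statement of this kind, with
the linear dependence on `log K`, for the residue classes modulo the powers of a prime, for ALL sets with
small doubling. (The known bounds in Freiman's theorem give only larger powers of `log K`.)
`log` is the natural logarithm.

(1) Let `A ⊆ ℤ` be finite and nonempty, `p` a prime and `K ≥ 1`, and let `|A + u A| ≤ K |A|` for some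
integer `u` which is not divisible by `p`; for instance `u = 1` or `u = -1`. Then there is a finite set
`B ⊆ ℕ`, the profile, which is a union of at most `10 ^ 32 log K` intervals, such that for every `T` the
number `classes A (p ^ T)` of the residue classes modulo `p ^ T` which meet `A` satisfies
`|log (classes A (p ^ T)) - |B ∩ [0, T)| log p| ≤ 10 ^ 33 log p log K`,
and `| log |A| - |B| log p | ≤ 10 ^ 33 log p log K`. In other words: the set `P` of the integers
`∑_(t ∈ B) a_t p ^ t`, `0 ≤ a_t < p`, is a proper generalized arithmetic progression of dimension at most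
`10 ^ 32 log K`, and `A` and `P` have the same size, and the same number of residue classes modulo
`p ^ T` for every `T`, up to factors `K ^ O(log p)`.
The entropies of the partitions of `A` into residue classes satisfy the same inequality.

(2) Let `A ⊆ ℤ ^ d` be finite and nonempty (`d` arbitrary), `p` a prime, `K ≥ 1`, and
`|A + u A| ≤ K |A|` for an integer `u` which is not divisible by `p`. Let `H (t)` be the entropy of the
partition of `A` into the classes modulo `p ^ t ℤ ^ d` and `η (t) = H (t + 1) - H (t)`, the entropy of
the digit with index `t` relative to the previous digits. Then for all but `10 ^ 32 log K` of the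
`t ≥ 0` either `η (t) ≤ 1 / 2000000`, or `η (t) ≥ (log p) / 2` and `η (t + 1) ≥ (log p) / 2`; and the sum
of all the `η (t)` with `η (t) ≤ 1 / 2000000` is at most `2 log K`. The constants do not depend on `d`,
`p`, `A`, `u`.

Proof. Let `X, X'` be independent and uniform on `A`, `Γ = ℤ ^ d`. The increments `h (t)` of the entropies
of `X + u X'` modulo `p ^ t` satisfy `h (t) ≥ η (t)` and `∑ (h (t) - η (t)) ≤ log K`. Conditioning on the
classes modulo `p ^ t` one gets sums of independent random elements of cosets of
`p ^ t Γ / p ^ (t + 2) Γ`; by an inverse theorem for entropies (Hellinger distances; an almost invariant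
distribution is close to a coset of a subgroup), if the cost `h - η` at `t` and `t + 1` is less than a
constant then most classes have almost uniform distributions on cosets of a common subgroup `H`. If `H` is
not contained in `p ^ (t + 1) Γ` then `H` contains elements of `p ^ (t + 1) Γ` not in `p ^ (t + 2) Γ`.
Small `η (t)` are bounded by twice the cost. For `d = 1` one needs in addition that the deficit
`log p - η (t)` of a large `η (t)` is `O (log p)` times the cost: for almost uniform classes the law of
`u X' - u X''` has a density bounded below, hence the mean square distance between the law of `X` and its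
translates is bounded by the cost.
-/

set_option autoImplicit false
open scoped Pointwise

namespace Pool.Agent.Results.MP_626a77_co.PadicProfile

/-- the number of the residue classes modulo `m` which meet `A` -/
def classes (A : Finset ℤ) (m : ℤ) : ℕ := (A.image fun x => x % m).card

/-- the number of the elements of `B` smaller than `T` -/
def below (B : Finset ℕ) (T : ℕ) : ℕ := (B.filter fun t => t < T).card

/-- the number of the maximal intervals of `B` (counted by their last elements) -/
def intervals (B : Finset ℕ) : ℕ := (B.filter fun t => t + 1 ∉ B).card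

open scoped Classical in
/-- the entropy of the partition of `A` into the classes modulo `m Γ` -/
noncomputable def ent {Γ : Type*} [AddCommGroup Γ] (A : Finset Γ) (m : ℕ) : ℝ :=
  (∑ x ∈ A, Real.log ((A.card : ℝ) / (A.filter fun y => ∃ z, y - x = m • z).card)) / A.card

/-- `η (t)`, the entropy of the `p`-adic digit with index `t` relative to the previous digits -/
noncomputable def eta {Γ : Type*} [AddCommGroup Γ] (A : Finset Γ) (p t : ℕ) : ℝ :=
  ent A (p ^ (t + 1)) - ent A (p ^ t)

/-- **The profile of a set with small doubling.** -/
theorem result :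
    -- (1) sets of integers
    (∀ (A : Finset ℤ), A.Nonempty → ∀ (K : ℝ), 1 ≤ K → ∀ (p : ℕ), p.Prime →
      ∀ u : ℤ, ¬ (p : ℤ) ∣ u → ((A + A.image fun x => u * x).card : ℝ) ≤ K * A.card →
      ∃ B : Finset ℕ, (intervals B : ℝ) ≤ 10 ^ 32 * Real.log K ∧
        (∀ T : ℕ, |Real.log (classes A ((p : ℤ) ^ T)) - below B T * Real.log p| ≤
          10 ^ 33 * Real.log p * Real.log K) ∧
        (∀ T : ℕ, |ent A (p ^ T) - below B T * Real.log p| ≤
          10 ^ 33 * Real.log p * Real.log K) ∧
        |Real.log A.card - B.card * Real.log p| ≤ 10 ^ 33 * Real.log p * Real.log K) ∧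
    -- (2) all dimensions
    (∀ (d : ℕ) (A : Finset (Fin d → ℤ)), A.Nonempty → ∀ (K : ℝ), 1 ≤ K → ∀ (p : ℕ), p.Prime →
      ∀ u : ℤ, ¬ (p : ℤ) ∣ u → ((A + A.image fun x => u • x).card : ℝ) ≤ K * A.card →
      ∀ T : ℕ,
        (((Finset.range T).filter fun t => ¬ (eta A p t ≤ 1 / 2000000 ∨
          (Real.log p / 2 ≤ eta A p t ∧ Real.log p / 2 ≤ eta A p (t + 1)))).card : ℝ) ≤
          10 ^ 32 * Real.log K ∧
        ∑ t ∈ (Finset.range T).filter (fun t => eta A p t ≤ 1 / 2000000), eta A p t ≤
          2 * Real.log K) := by
  have cop : ∀ (p : ℕ), p.Prime → ∀ u : ℤ, ¬ (p : ℤ) ∣ u → IsCoprime u (p : ℤ) := by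
    intro p hp u hu
    exact ((Nat.prime_iff_prime_int.1 hp).coprime_iff_not_dvd.2 hu).symm
  constructor
  · intro A hA K hK p hp u hu hsum
    have u0 : u ≠ 0 := by
      rintro rfl
      exact hu (dvd_zero _)
    have hsum' : ((A + A.image fun x => u • x).card : ℝ) ≤ K * A.card := by
      simpa [smul_eq_mul] using hsum
    obtain ⟨B, h1, h2, h3⟩ := Pool.Agent.U234.OD.prof_int p hp u (cop p hp u hu) A hA K hK hsum'
    have l2 := Real.log_two_gt_d9
    have lp : Real.log 2 ≤ Real.log p := Real.log_le_log (by norm_num) (by exact_mod_cast hp.two_le)
    have k0 : 0 ≤ Real.log K := Real.log_nonneg hK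
    have hle : Real.log K + 10 ^ 32 * Real.log p * Real.log K ≤
        10 ^ 33 * Real.log p * Real.log K := by
      have : 1 * Real.log K ≤ 2 * Real.log p * Real.log K :=
        mul_le_mul_of_nonneg_right (by linarith) k0
      have h0 : 0 ≤ Real.log p * Real.log K := mul_nonneg (by linarith) k0
      linarith
    have hle2 : 10 ^ 32 * Real.log p * Real.log K ≤ 10 ^ 33 * Real.log p * Real.log K := by
      linarith
    refine ⟨B, h3, fun T => ?_, fun T => (h1 T).trans hle2, h2.trans hle2⟩
    have h4 := Pool.Agent.U234.OD.card_ent p T hp.pos u u0 A hA K hK hsum'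
    have h5 := h1 T
    have h6 := abs_add_le (Real.log (classes A ((p : ℤ) ^ T)) - Pool.Agent.U234.OD.ent A (p ^ T))
      (Pool.Agent.U234.OD.ent A (p ^ T) - (B.filter fun t => t < T).card * Real.log p)
    rw [sub_add_sub_cancel] at h6
    exact h6.trans ((add_le_add h4 h5).trans hle)
  · intro d A hA K hK p hp u hu hsum T
    have htf : ∀ (n : ℕ) (x : Fin d → ℤ), n ≠ 0 → n • x = 0 → x = 0 := by
      intro n x hn h
      funext i
      have h1 := congrFun h i
      simp only [Pi.smul_apply, Pi.zero_apply, nsmul_eq_mul] at h1
      rcases mul_eq_zero.1 h1 with h2 | h2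
      · exact absurd (by exact_mod_cast h2) hn
      · exact h2
    exact Pool.Agent.U234.OD.dich_tf htf p hp u (cop p hp u hu) A hA K hK hsum T

end Pool.Agent.Results.MP_626a77_co.PadicProfile
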